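import Mathlib
import Pool.Agent.Q157.DD.All

/-!
# MP_5a645a_al, Q1: the least constant is 3

Every finite solvable permutation group has a 2-colouring whose colour-preserving subgroup has derived length at
most 3, and 3 is best possible.
-/

set_option autoImplicit false

namespace Pool.Agent.Results.MP_5a645a_al.LeastIsThree

open Equiv

/-- The colour-preserving subgroup `G_γ`. -/
def colourPreserving {Ω : Type} (G : Subgroup (Perm Ω)) (γ : Ω → Fin 2) : Subgroup (Perm Ω) where
  carrier := {g | g ∈ G ∧ ∀ ω, γ (g ω) = γ ω}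
  one_mem' := ⟨G.one_mem, fun _ => rfl⟩
  mul_mem' := by
    rintro a b ⟨ha, ha'⟩ ⟨hb, hb'⟩
    refine ⟨G.mul_mem ha hb, fun ω => ?_⟩
    show γ (a (b ω)) = γ ω
    rw [ha', hb']
  inv_mem' := by
    rintro a ⟨ha, ha'⟩
    refine ⟨G.inv_mem ha, fun ω => ?_⟩
    rw [← ha' (a⁻¹ ω)]
    congr 1
    exact a.apply_symm_apply ω

/-- The derived length of a solvable group: the least `d` such that the `d`-th derived subgroup is trivial. -/
noncomputable def derivedLength (H : Type) [Group H] : ℕ := sInf {d : ℕ | derivedSeries H d = ⊥}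

/-- The least `c` such that every solvable permutation group `G` on a finite set `Ω` has a 2-colouring `γ` such that
`G_γ` has derived length at most `c` is `3`. -/
theorem result : IsLeast {c : ℕ | ∀ (Ω : Type) [Finite Ω] (G : Subgroup (Perm Ω)), Group.IsSolvable G →
    ∃ γ : Ω → Fin 2, derivedLength (colourPreserving G γ) ≤ c} 3 := by
  constructor
  · intro Ω _ G hs
    obtain ⟨c, hc⟩ := Pool.Agent.Q157.DD.all_up Ω G hs
    let γ : Ω → Fin 2 := fun x => if c x = true then 0 else 1
    have hγ : ∀ x y, γ x = γ y → c x = c y := by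
      intro x y h
      by_cases h1 : c x = true <;> by_cases h2 : c y = true <;> simp_all [γ]
    refine ⟨γ, Nat.sInf_le ?_⟩
    show derivedSeries (colourPreserving G γ) 3 = ⊥
    rw [Pool.Agent.Q157.DD.derived_eq_bot]
    refine Pool.Agent.Q157.DD.ds_bot_mono ?_ le_rfl hc
    rintro g ⟨hg, hgc⟩
    exact ⟨hg, fun x => hγ _ _ (hgc x)⟩
  · intro n hn
    by_contra hlt
    obtain ⟨γ, hγ⟩ := hn Pool.Agent.Q157.DD.P32 Pool.Agent.Q157.DD.G32 Pool.Agent.Q157.DD.all_sol
    have hle : colourPreserving Pool.Agent.Q157.DD.G32 γ ≤ Pool.Agent.Q157.DD.G32 := fun g hg => hg.1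
    have hsol : Group.IsSolvable (colourPreserving Pool.Agent.Q157.DD.G32 γ) := by
      have hs : Group.IsSolvable Pool.Agent.Q157.DD.G32 := Pool.Agent.Q157.DD.all_sol
      exact Group.isSolvable_of_isSolvable_injective (Subgroup.inclusion_injective hle)
    have hne : {d : ℕ | derivedSeries (colourPreserving Pool.Agent.Q157.DD.G32 γ) d = ⊥}.Nonempty :=
      hsol.solvable
    have h1 : derivedSeries (colourPreserving Pool.Agent.Q157.DD.G32 γ)
        (derivedLength (colourPreserving Pool.Agent.Q157.DD.G32 γ)) = ⊥ := Nat.sInf_mem hne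
    rw [Pool.Agent.Q157.DD.derived_eq_bot] at h1
    apply Pool.Agent.Q157.DD.all_low (fun x => decide (γ x = 0))
    refine Pool.Agent.Q157.DD.ds_bot_mono ?_ (by omega) h1
    rintro g ⟨hg, hgc⟩
    refine ⟨hg, fun x => ?_⟩
    have h2 : decide (γ (g x) = 0) = decide (γ x = 0) := hgc x
    have h3 : ∀ a b : Fin 2, decide (a = 0) = decide (b = 0) → a = b := by decide
    exact h3 _ _ h2

end Pool.Agent.Results.MP_5a645a_al.LeastIsThree
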